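import Pool.Agent.helper19.LP.D

/-!
# Module G: the adjacency matrix of the graph of an instance is given by a local pattern
-/

set_option autoImplicit false

namespace Pool.Agent.helper64.LP

namespace ModG

/-! ### finiteness -/

lemma finite_El {W C : Type} [Finite W] [Finite C] : Finite (El W C) := by
  have : Function.Injective (fun x : El W C => match x with
    | .inf => (Sum.inl 0 : Fin 3 ⊕ (Bool × W) ⊕ (C × Fin 3))
    | .div => Sum.inl 1
    | .fls => Sum.inl 2
    | .lit b w => Sum.inr (Sum.inl (b, w))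
    | .aux c s => Sum.inr (Sum.inr (c, s))) := by
    intro x y h
    cases x <;> cases y <;> simp_all
  exact Finite.of_injective _ this

lemma finite_Tr {W C : Type} [Finite W] [Finite C] : Finite (Tr W C) := by
  have : Function.Injective (fun x : Tr W C => match x with
    | .neg w => (Sum.inl w : W ⊕ (C × Fin 3) ⊕ C)
    | .chain c s => Sum.inr (Sum.inl (c, s))
    | .fin c => Sum.inr (Sum.inr c)) := by
    intro x y h
    cases x <;> cases y <;> simp_all
  exact Finite.of_injective _ this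

lemma finite_Vtx {k : ℕ} {E T : Type} [Finite E] [Finite T] : Finite (Vtx k E T) := by
  have : Function.Injective (fun x : Vtx k E T => match x with
    | .hub => (Sum.inl none : (Option E) ⊕ (T × Fin 4 × Fin (k - 2)) ⊕ T ⊕ (T × Fin 4) ⊕
        (T × Fin 4 × Fin (k - 3)))
    | .el x => Sum.inl (some x)
    | .sp τ i j => Sum.inr (Sum.inl (τ, i, j))
    | .cen τ => Sum.inr (Sum.inr (Sum.inl τ))
    | .ctr τ i => Sum.inr (Sum.inr (Sum.inr (Sum.inl (τ, i))))
    | .leg τ i j => Sum.inr (Sum.inr (Sum.inr (Sum.inr (τ, i, j))))) := by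
    intro x y h
    cases x <;> cases y <;> simp_all
  exact Finite.of_injective _ this

/-! ### kinds and coordinates -/

variable {U : UCNF} {w : List Bool} {N B : ℕ}

/-- kind of an element -/
def kE : El (U.Var N) (U.Cla w N B) → El U.VA U.CL
  | .inf => .inf
  | .div => .div
  | .fls => .fls
  | .lit b v => .lit b v.1
  | .aux c s => .aux c.1.1 s

/-- coordinates of an element -/
def cE (z : Fin N) : El (U.Var N) (U.Cla w N B) → Fin N × Fin N
  | .inf => (z, z)
  | .div => (z, z)
  | .fls => (z, z)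
  | .lit _ v => v.2
  | .aux c _ => c.1.2

/-- kind of a constraint -/
def kT : Tr (U.Var N) (U.Cla w N B) → Tr U.VA U.CL
  | .neg v => .neg v.1
  | .chain c s => .chain c.1.1 s
  | .fin c => .fin c.1.1

/-- coordinates of a constraint -/
def cT : Tr (U.Var N) (U.Cla w N B) → Fin N × Fin N
  | .neg v => v.2
  | .chain c _ => c.1.2
  | .fin c => c.1.2

/-- kind of a vertex -/
def kV {k : ℕ} : Vtx k (El (U.Var N) (U.Cla w N B)) (U.Con w N B) →
    Vtx k (El U.VA U.CL) (Tr U.VA U.CL)
  | .hub => .hub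
  | .el x => .el (kE x)
  | .sp τ i j => .sp (kT τ.1) i j
  | .cen τ => .cen (kT τ.1)
  | .ctr τ i => .ctr (kT τ.1) i
  | .leg τ i j => .leg (kT τ.1) i j

/-- coordinates of a vertex -/
def cV {k : ℕ} (z : Fin N) : Vtx k (El (U.Var N) (U.Cla w N B)) (U.Con w N B) → Fin N × Fin N
  | .hub => (z, z)
  | .el x => cE z x
  | .sp τ _ _ => cT τ.1
  | .cen τ => cT τ.1
  | .ctr τ _ => cT τ.1
  | .leg τ _ _ => cT τ.1

lemma E_inj (z : Fin N) {a b : El (U.Var N) (U.Cla w N B)} (h1 : kE a = kE b)
    (h2 : cE z a = cE z b) : a = b := by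
  cases a <;> cases b <;> simp_all [kE, cE]
  · exact Prod.ext h1.2 h2
  · exact Subtype.ext (Prod.ext h1.1 h2)

lemma T_inj {a b : Tr (U.Var N) (U.Cla w N B)} (h1 : kT a = kT b)
    (h2 : cT a = cT b) : a = b := by
  cases a <;> cases b <;> simp_all [kT, cT]
  · exact Prod.ext h1 h2
  · exact Subtype.ext (Prod.ext h1.1 h2)
  · exact Subtype.ext (Prod.ext h1 h2)

lemma V_inj {k : ℕ} (z : Fin N) {a b : Vtx k (El (U.Var N) (U.Cla w N B)) (U.Con w N B)}
    (h1 : kV a = kV b) (h2 : cV z a = cV z b) : a = b := by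
  cases a <;> cases b <;> simp_all [kV, cV]
  · exact E_inj z h1 h2
  · exact Subtype.ext (T_inj h1.1 h2)
  · exact Subtype.ext (T_inj h1 h2)
  · exact Subtype.ext (T_inj h1.1 h2)
  · exact Subtype.ext (T_inj h1.1 h2)

/-! ### the quadruple of a constraint -/

/-- a literal at the level of kinds, with offsets -/
def litK (U : UCNF) (c : U.CL) (s : ℕ) : El U.VA U.CL × Off × Off :=
  match (U.lits c)[s]? with
  | some l => (.lit l.sgn l.var, l.ot, l.oj)
  | none => (.fls, .zero, .zero)

/-- accumulators at the level of kinds, with offsets -/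
def accK (U : UCNF) (c : U.CL) (s : ℕ) : El U.VA U.CL × Off × Off :=
  match s with
  | 0 => litK U c 0
  | s + 1 => (.aux c ⟨s % 3, Nat.mod_lt _ (by norm_num)⟩, .same, .same)

/-- the quadruple of a constraint at the level of kinds, with offsets -/
def quadK (U : UCNF) : Tr U.VA U.CL → Fin 4 → El U.VA U.CL × Off × Off
  | .neg a => ![(.inf, .zero, .zero), (.lit true a, .same, .same), (.div, .zero, .zero),
      (.lit false a, .same, .same)]
  | .chain c s => ![(.inf, .zero, .zero), accK U c s.val, (.aux c s, .same, .same),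
      litK U c (s.val + 1)]
  | .fin c => ![(.inf, .zero, .zero), (.fls, .zero, .zero), (.div, .zero, .zero),
      accK U c ((U.lits c).length - 1)]

/-- specification of an element with respect to a pair of coordinates -/
def Spec (z : Fin N) (x : Fin N × Fin N) (e : El (U.Var N) (U.Cla w N B))
    (K : El U.VA U.CL × Off × Off) : Prop :=
  kE e = K.1 ∧ cE z e = (resolve K.2.1 x.1, resolve K.2.2 x.2)

lemma resolve_zero {z : Fin N} (hz : z.val = 0) (x : Fin N) : resolve .zero x = z :=
  Fin.ext hz.symm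

lemma litAt_spec {z : Fin N} (hz : z.val = 0) (c : U.Cla w N B) (s : ℕ) :
    Spec z c.1.2 (litAt (U.ilits w N B) c s) (litK U c.1.1 s) := by
  unfold litAt litK UCNF.ilits
  rw [List.getElem?_map]
  cases (U.lits c.1.1)[s]? with
  | none =>
    exact ⟨rfl, by simp [cE, resolve_zero hz]⟩
  | some l => exact ⟨rfl, rfl⟩

lemma accAt_spec {z : Fin N} (hz : z.val = 0) (c : U.Cla w N B) (s : ℕ) :
    Spec z c.1.2 (accAt (U.ilits w N B) c s) (accK U c.1.1 s) := by
  cases s with
  | zero => exact litAt_spec hz c 0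
  | succ s => exact ⟨rfl, rfl⟩

lemma quad_spec {z : Fin N} (hz : z.val = 0) (τ : Tr (U.Var N) (U.Cla w N B)) (i : Fin 4) :
    Spec z (cT τ) (quad (U.ilits w N B) τ i) (quadK U (kT τ) i) := by
  have hz0 : ∀ x : Fin N, resolve .zero x = z := resolve_zero hz
  cases τ with
  | neg v =>
    fin_cases i
    · exact ⟨rfl, by simp [quad, quadK, kT, cE, hz0]⟩
    · exact ⟨rfl, rfl⟩
    · exact ⟨rfl, by simp [quad, quadK, kT, cE, hz0]⟩
    · exact ⟨rfl, rfl⟩
  | chain c s =>
    fin_cases i
    · exact ⟨rfl, by simp [quad, quadK, kT, cE, hz0]⟩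
    · exact accAt_spec hz c s.val
    · exact ⟨rfl, rfl⟩
    · exact litAt_spec hz c (s.val + 1)
  | fin c =>
    fin_cases i
    · exact ⟨rfl, by simp [quad, quadK, kT, cE, hz0]⟩
    · exact ⟨rfl, by simp [quad, quadK, kT, cE, hz0]⟩
    · exact ⟨rfl, by simp [quad, quadK, kT, cE, hz0]⟩
    · have h := accAt_spec hz c ((U.lits c.1.1).length - 1)
      have h1 : (U.ilits w N B c).length = (U.lits c.1.1).length := by
        unfold UCNF.ilits; rw [List.length_map]
      simp only [quad, quadK, kT, cT, h1]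
      exact h

/-! ### locality -/

variable {w' : List Bool} {N' B' : ℕ}

lemma transfer_T {τ : U.Con w N B} {x' : Fin N' × Fin N'}
    (h : upat w N B (cT τ.1) = upat w' N' B' x') :
    ∃ τ' : U.Con w' N' B', kT τ'.1 = kT τ.1 ∧ cT τ'.1 = x' := by
  obtain ⟨τ, hτ⟩ := τ
  cases τ with
  | neg v => exact ⟨⟨.neg (v.1, x'), trivial⟩, rfl, rfl⟩
  | chain c s =>
    refine ⟨⟨.chain ⟨(c.1.1, x'), ?_⟩ s, ?_⟩, rfl, rfl⟩
    · have := c.2
      simp only [cT] at h
      rw [h] at this
      exact this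
    · simp only [Act, UCNF.ilits, List.length_map] at hτ ⊢
      exact hτ
  | fin c =>
    refine ⟨⟨.fin ⟨(c.1.1, x'), ?_⟩, trivial⟩, rfl, rfl⟩
    have := c.2
    simp only [cT] at h
    rw [h] at this
    exact this

lemma zero_of_upat {x : Fin N × Fin N} {x' : Fin N' × Fin N'} {z : Fin N} {z' : Fin N'}
    (hz : z.val = 0) (hz' : z'.val = 0) (hx : x = (z, z))
    (h : upat w N B x = upat w' N' B' x') : x' = (z', z') := by
  subst hx
  have h1 := congrArg UPat.t0 h
  have h2 := congrArg UPat.j0 h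
  simp only [upat, hz, decide_true] at h1 h2
  have h3 := of_decide_eq_true h1.symm
  have h4 := of_decide_eq_true h2.symm
  exact Prod.ext (Fin.ext (by rw [h3, hz'])) (Fin.ext (by rw [h4, hz']))

lemma transfer_E {z : Fin N} {z' : Fin N'} (hz : z.val = 0) (hz' : z'.val = 0)
    {e : El (U.Var N) (U.Cla w N B)} {x' : Fin N' × Fin N'}
    (h : upat w N B (cE z e) = upat w' N' B' x') :
    ∃ e' : El (U.Var N') (U.Cla w' N' B'), kE e' = kE e ∧ cE z' e' = x' := by
  cases e with
  | inf => exact ⟨.inf, rfl, (zero_of_upat hz hz' rfl h).symm⟩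
  | div => exact ⟨.div, rfl, (zero_of_upat hz hz' rfl h).symm⟩
  | fls => exact ⟨.fls, rfl, (zero_of_upat hz hz' rfl h).symm⟩
  | lit b v => exact ⟨.lit b (v.1, x'), rfl, rfl⟩
  | aux c s =>
    refine ⟨.aux ⟨(c.1.1, x'), ?_⟩ s, rfl, rfl⟩
    have := c.2
    simp only [cE] at h
    rw [h] at this
    exact this

lemma resolve_local_t {o : Off} {x y : Fin N × Fin N} {x' y' : Fin N' × Fin N'}
    (hP : bpat w N B x y = bpat w' N' B' x' y') (h : x.1 = resolve o y.1) :
    x'.1 = resolve o y'.1 := by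
  have h1 := congrArg BPat.tt hP
  have h2 := congrArg BPat.tp hP
  have h3 := congrArg (fun P => P.p'.tl) hP
  have h4 := congrArg (fun P => P.p.t0) hP
  simp only [bpat, upat, decide_eq_decide] at h1 h2 h3 h4
  cases o with
  | same =>
    apply Fin.ext
    exact h1.1 (congrArg Fin.val h)
  | next =>
    unfold resolve at h ⊢
    simp only at h ⊢
    split_ifs at h with h5
    · have h6 := h2.1 (congrArg Fin.val h)
      have h7 : y'.1.val + 1 < N' := by rw [← h6]; exact x'.1.isLt
      rw [dif_pos h7]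
      exact Fin.ext h6
    · have h6 := h1.1 (congrArg Fin.val h)
      have h7 : y.1.val + 1 = N := by have := y.1.isLt; omega
      have h8 := h3.1 h7
      rw [dif_neg (by omega)]
      exact Fin.ext h6
  | zero =>
    apply Fin.ext
    exact h4.1 (congrArg Fin.val h)

lemma resolve_local_j {o : Off} {x y : Fin N × Fin N} {x' y' : Fin N' × Fin N'}
    (hP : bpat w N B x y = bpat w' N' B' x' y') (h : x.2 = resolve o y.2) :
    x'.2 = resolve o y'.2 := by
  have h1 := congrArg BPat.jj hP
  have h2 := congrArg BPat.jp hP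
  have h3 := congrArg (fun P => P.p'.jl) hP
  have h4 := congrArg (fun P => P.p.j0) hP
  simp only [bpat, upat, decide_eq_decide] at h1 h2 h3 h4
  cases o with
  | same =>
    apply Fin.ext
    exact h1.1 (congrArg Fin.val h)
  | next =>
    unfold resolve at h ⊢
    simp only at h ⊢
    split_ifs at h with h5
    · have h6 := h2.1 (congrArg Fin.val h)
      have h7 : y'.2.val + 1 < N' := by rw [← h6]; exact x'.2.isLt
      rw [dif_pos h7]
      exact Fin.ext h6
    · have h6 := h1.1 (congrArg Fin.val h)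
      have h7 : y.2.val + 1 = N := by have := y.2.isLt; omega
      have h8 := h3.1 h7
      rw [dif_neg (by omega)]
      exact Fin.ext h6
  | zero =>
    apply Fin.ext
    exact h4.1 (congrArg Fin.val h)

lemma same_local {x y : Fin N × Fin N} {x' y' : Fin N' × Fin N'}
    (hP : bpat w N B x y = bpat w' N' B' x' y') (h : x = y) : x' = y' := by
  subst h
  exact Prod.ext (resolve_local_t (o := .same) hP rfl) (resolve_local_j (o := .same) hP rfl)

lemma bpat_swap {x y : Fin N × Fin N} {x' y' : Fin N' × Fin N'}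
    (hP : bpat w N B x y = bpat w' N' B' x' y') :
    bpat w N B y x = bpat w' N' B' y' x' := by
  simp only [bpat, BPat.mk.injEq, decide_eq_decide] at hP ⊢
  obtain ⟨h1, h2, h3, h4, h5, h6, h7, h8⟩ := hP
  exact ⟨h2, h1, by rw [eq_comm, h3, eq_comm], h5, h4, by rw [eq_comm, h6, eq_comm], h8, h7⟩

/-- a directed edge between vertices of given kinds and coordinates -/
def RelAt (U : UCNF) (k : ℕ) (w : List Bool) (N B : ℕ) (z : Fin N)
    (K₁ : Vtx k (El U.VA U.CL) (Tr U.VA U.CL)) (x : Fin N × Fin N)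
    (K₂ : Vtx k (El U.VA U.CL) (Tr U.VA U.CL)) (y : Fin N × Fin N) : Prop :=
  ∃ u v, Rel k (U.iquad w N B) u v ∧ kV u = K₁ ∧ cV z u = x ∧ kV v = K₂ ∧ cV z v = y

lemma relAt_local {k : ℕ} {z : Fin N} {z' : Fin N'} (hz : z.val = 0) (hz' : z'.val = 0)
    {x y : Fin N × Fin N} {x' y' : Fin N' × Fin N'}
    (hP : bpat w N B x y = bpat w' N' B' x' y')
    {K₁ K₂ : Vtx k (El U.VA U.CL) (Tr U.VA U.CL)} (h : RelAt U k w N B z K₁ x K₂ y) :
    RelAt U k w' N' B' z' K₁ x' K₂ y' := by
  obtain ⟨u, v, hr, rfl, rfl, rfl, rfl⟩ := h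
  have hp1 : upat w N B (cV z u) = upat w' N' B' x' := congrArg BPat.p hP
  have hp2 : upat w N B (cV z v) = upat w' N' B' y' := congrArg BPat.p' hP
  cases hr with
  | hub_el e =>
    obtain ⟨e', h1, h2⟩ := transfer_E hz hz' hp2
    exact ⟨_, _, .hub_el e', rfl, (zero_of_upat hz hz' rfl hp1).symm, congrArg Vtx.el h1, h2⟩
  | hub_sp τ i j hj =>
    obtain ⟨τ', h1, h2⟩ := transfer_T hp2
    exact ⟨_, _, .hub_sp τ' i j hj, rfl, (zero_of_upat hz hz' rfl hp1).symm,
      by simp only [kV, h1], h2⟩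
  | sp_sp τ i j j' hj =>
    obtain ⟨τ', h1, h2⟩ := transfer_T hp1
    have h3 : x' = y' := same_local hP rfl
    exact ⟨_, _, .sp_sp τ' i j j' hj, by simp only [kV, h1], h2, by simp only [kV, h1],
      h2.trans h3⟩
  | sp_cen τ i j hj =>
    obtain ⟨τ', h1, h2⟩ := transfer_T hp1
    have h3 : x' = y' := same_local hP rfl
    exact ⟨_, _, .sp_cen τ' i j hj, by simp only [kV, h1], h2, by simp only [kV, h1],
      h2.trans h3⟩
  | sp_ctr τ i j hj =>
    obtain ⟨τ', h1, h2⟩ := transfer_T hp1
    have h3 : x' = y' := same_local hP rfl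
    exact ⟨_, _, .sp_ctr τ' i j hj, by simp only [kV, h1], h2, by simp only [kV, h1],
      h2.trans h3⟩
  | sp_ctr' τ i j hj =>
    obtain ⟨τ', h1, h2⟩ := transfer_T hp1
    have h3 : x' = y' := same_local hP rfl
    exact ⟨_, _, .sp_ctr' τ' i j hj, by simp only [kV, h1], h2, by simp only [kV, h1],
      h2.trans h3⟩
  | cen_ctr τ i =>
    obtain ⟨τ', h1, h2⟩ := transfer_T hp1
    have h3 : x' = y' := same_local hP rfl
    exact ⟨_, _, .cen_ctr τ' i, by simp only [kV, h1], h2, by simp only [kV, h1],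
      h2.trans h3⟩
  | el_leg τ i j hj =>
    obtain ⟨τ', h1, h2⟩ := transfer_T hp2
    obtain ⟨h3, h4⟩ := quad_spec hz τ.1 i
    obtain ⟨h5, h6⟩ := quad_spec hz' τ'.1 i
    refine ⟨_, _, .el_leg τ' i j hj, ?_, ?_, by simp only [kV, h1], h2⟩
    · simp only [kV, UCNF.iquad]
      rw [h3, h5, h1]
    · change cE z' (quad _ _ _) = _
      rw [h6, h1, h2]
      have e1 : (cE z (quad (U.ilits w N B) τ.1 i)).1 = _ := congrArg Prod.fst h4
      have e2 : (cE z (quad (U.ilits w N B) τ.1 i)).2 = _ := congrArg Prod.snd h4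
      exact Prod.ext (resolve_local_t hP e1).symm (resolve_local_j hP e2).symm
  | leg_leg τ i j j' hj =>
    obtain ⟨τ', h1, h2⟩ := transfer_T hp1
    have h3 : x' = y' := same_local hP rfl
    exact ⟨_, _, .leg_leg τ' i j j' hj, by simp only [kV, h1], h2, by simp only [kV, h1],
      h2.trans h3⟩
  | leg_ctr τ i j hj =>
    obtain ⟨τ', h1, h2⟩ := transfer_T hp1
    have h3 : x' = y' := same_local hP rfl
    exact ⟨_, _, .leg_ctr τ' i j hj, by simp only [kV, h1], h2, by simp only [kV, h1],
      h2.trans h3⟩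
  | el_ctr τ i hk =>
    obtain ⟨τ', h1, h2⟩ := transfer_T hp2
    obtain ⟨h3, h4⟩ := quad_spec hz τ.1 i
    obtain ⟨h5, h6⟩ := quad_spec hz' τ'.1 i
    refine ⟨_, _, .el_ctr τ' i hk, ?_, ?_, by simp only [kV, h1], h2⟩
    · simp only [kV, UCNF.iquad]
      rw [h3, h5, h1]
    · change cE z' (quad _ _ _) = _
      rw [h6, h1, h2]
      have e1 : (cE z (quad (U.ilits w N B) τ.1 i)).1 = _ := congrArg Prod.fst h4
      have e2 : (cE z (quad (U.ilits w N B) τ.1 i)).2 = _ := congrArg Prod.snd h4
      exact Prod.ext (resolve_local_t hP e1).symm (resolve_local_j hP e2).symm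

lemma rel_ne {k : ℕ} {E T : Type} {q : T → Fin 4 → E} {a b : Vtx k E T} (h : Rel k q a b) :
    a ≠ b := by
  cases h with
  | sp_sp τ i j j' hj =>
    intro h
    injection h with _ _ h
    rw [h] at hj
    omega
  | leg_leg τ i j j' hj =>
    intro h
    injection h with _ _ h
    rw [h] at hj
    omega
  | _ => intro h; injection h

lemma adj_iff {k : ℕ} {E T : Type} {q : T → Fin 4 → E} {a b : Vtx k E T} :
    (Gk k q).Adj a b ↔ Rel k q a b ∨ Rel k q b a := by
  unfold Gk
  rw [SimpleGraph.fromRel_adj]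
  constructor
  · exact fun h => h.2
  · intro h
    refine ⟨?_, h⟩
    rcases h with h | h
    · exact rel_ne h
    · exact (rel_ne h).symm

/-! ### lists -/

lemma flatMap_inj {α β : Type*} {f g : α → List β} {m : ℕ} : ∀ (l : List α),
    (∀ a ∈ l, (f a).length = m) → (∀ a ∈ l, (g a).length = m) → l.flatMap f = l.flatMap g →
    ∀ a ∈ l, f a = g a := by
  intro l
  induction l with
  | nil => intro _ _ _ a ha; simp at ha
  | cons b l ih =>
    intro hf hg h a ha
    rw [List.flatMap_cons, List.flatMap_cons] at h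
    obtain ⟨h1, h2⟩ := List.append_inj h (by
      rw [hf b (List.mem_cons_self ..), hg b (List.mem_cons_self ..)])
    rcases List.mem_cons.1 ha with rfl | ha
    · exact h1
    · exact ih (fun a ha => hf a (List.mem_cons_of_mem _ ha))
        (fun a ha => hg a (List.mem_cons_of_mem _ ha)) h2 a ha

lemma length_adjBits (n : ℕ) (A : Fin n → Fin n → Bool) : (adjBits n A).length = n * n := by
  unfold adjBits
  rw [List.length_flatMap]
  simp

lemma adjBits_inj {n : ℕ} {A A' : Fin n → Fin n → Bool} (h : adjBits n A = adjBits n A') :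
    A = A' := by
  unfold adjBits at h
  funext i j
  have h1 := flatMap_inj (m := n) _ (by simp) (by simp) h i (List.mem_finRange i)
  exact List.map_inj_left.1 h1 j (List.mem_finRange j)

lemma mem_allVerts {p N : ℕ} (x : Fin N × Fin N × Fin p) : x ∈ allVerts p N := by
  unfold allVerts
  rw [List.mem_flatMap]
  refine ⟨x.1, List.mem_finRange _, ?_⟩
  rw [List.mem_flatMap]
  refine ⟨x.2.1, List.mem_finRange _, ?_⟩
  rw [List.mem_map]
  exact ⟨x.2.2, List.mem_finRange _, rfl⟩

lemma nodup_allVerts (p N : ℕ) : (allVerts p N).Nodup := by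
  unfold allVerts
  rw [List.nodup_flatMap]
  constructor
  · intro t _
    rw [List.nodup_flatMap]
    constructor
    · intro j _
      refine (List.nodup_finRange p).map ?_
      intro a b h
      simp only [Prod.mk.injEq] at h
      exact h.2.2
    · refine (List.nodup_finRange N).imp ?_
      intro a b hab x hx hx'
      simp only [List.mem_map] at hx hx'
      obtain ⟨c, -, rfl⟩ := hx
      obtain ⟨d, -, h⟩ := hx'
      simp only [Prod.mk.injEq] at h
      exact hab h.2.1.symm
  · refine (List.nodup_finRange N).imp ?_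
    intro a b hab x hx hx'
    simp only [List.mem_flatMap, List.mem_map] at hx hx'
    obtain ⟨c, -, e, -, rfl⟩ := hx
    obtain ⟨d, -, f, -, h⟩ := hx'
    simp only [Prod.mk.injEq] at h
    exact hab h.1.symm

/-- membership of the matrix of a graph on the vertices of a list -/
lemma mem_lang {W : Type} [Finite W] {k : ℕ} (L : List W) (hL : L.Nodup) (hm : ∀ x, x ∈ L)
    (G : SimpleGraph W) (A : W → W → Bool) (hA : ∀ x y, A x y = true ↔ G.Adj x y) :
    (L.flatMap fun x => L.map fun y => A x y) ∈ LPLang k ↔ LocallyPlanar k G := by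
  classical
  let e : Fin L.length ≃ W := List.Nodup.getEquivOfForallMemList L hL hm
  have he : ∀ i, e i = L.get i := fun i => rfl
  set G' : SimpleGraph (Fin L.length) := G.map e.symm.toEmbedding with hG'
  have hadj : ∀ i j, G'.Adj i j ↔ G.Adj (e i) (e j) := by
    intro i j
    rw [hG', ModD.adj_iff]
    constructor
    · rintro ⟨a, b, h, rfl, rfl⟩
      simpa using h
    · intro h
      exact ⟨e i, e j, h, by simp, by simp⟩
  have hbits : (L.flatMap fun x => L.map fun y => A x y) =
      adjBits L.length fun i j => A (e i) (e j) := by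
    unfold adjBits
    have h1 : L = (List.finRange L.length).map e := by
      conv_lhs => rw [← List.map_get_finRange L]
      exact List.map_congr_left fun i _ => (he i).symm
    conv_lhs => rw [h1]
    rw [List.flatMap_map]
    congr 1
    funext i
    rw [List.map_map]
    rfl
  rw [hbits, ← locallyPlanar_map e.symm.toEmbedding G]
  constructor
  · rintro ⟨n, G₁, A₁, h1, h2, h3⟩
    have hn : n = L.length := by
      have := congrArg List.length h2
      rw [length_adjBits, length_adjBits] at this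
      exact (Nat.mul_self_inj.1 this).symm
    subst hn
    have h4 := adjBits_inj h2
    have h5 : G₁ = G' := by
      ext i j
      rw [hadj, ← h1, ← hA, ← h4]
    rw [hG'] at h5
    rw [← h5]
    exact h3
  · intro h
    exact ⟨L.length, G', _, fun i j => by rw [hA, hadj], rfl, h⟩

end ModG

open ModG in
open Classical in
/-- Module G -/
theorem bits (U : UCNF) {k : ℕ} (hk : 3 ≤ k) :
    ∃ (p : ℕ) (β : Fin p → Fin p → BPat → Bool), ∀ (w : List Bool) (N B : ℕ), 0 < N →
      GoodLits (U.ilits w N B) →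
      (matBits p N B w β ∈ LPLang k ↔ LocallyPlanar k (Gk k (U.iquad w N B))) := by
  have := U.finVA
  have := U.finCL
  have h1 : Finite (El U.VA U.CL) := finite_El
  have h2 : Finite (Tr U.VA U.CL) := finite_Tr
  have h3 : Finite (Vtx k (El U.VA U.CL) (Tr U.VA U.CL)) := finite_Vtx
  obtain ⟨p, ⟨κ⟩⟩ := Finite.exists_equiv_fin (Vtx k (El U.VA U.CL) (Tr U.VA U.CL))
  refine ⟨p, fun a b P => decide (∃ (w : List Bool) (N B : ℕ) (z : Fin N) (x y : Fin N × Fin N),
    z.val = 0 ∧ bpat w N B x y = P ∧ (RelAt U k w N B z (κ.symm a) x (κ.symm b) y ∨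
      RelAt U k w N B z (κ.symm b) y (κ.symm a) x)), ?_⟩
  intro w N B hN _
  let z : Fin N := ⟨0, hN⟩
  have hz : z.val = 0 := rfl
  have h4 : Finite (El (U.Var N) (U.Cla w N B)) := finite_El
  have h5 : Finite (Tr (U.Var N) (U.Cla w N B)) := finite_Tr
  have h6 : Finite (Vtx k (El (U.Var N) (U.Cla w N B)) (U.Con w N B)) := finite_Vtx
  let F : Vtx k (El (U.Var N) (U.Cla w N B)) (U.Con w N B) ↪ Fin N × Fin N × Fin p :=
    ⟨fun v => ((cV z v).1, (cV z v).2, κ (kV v)), by
      intro a b h
      simp only [Prod.mk.injEq] at h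
      exact V_inj z (κ.injective h.2.2) (Prod.ext h.1 h.2.1)⟩
  rw [← locallyPlanar_map F]
  unfold matBits
  apply mem_lang (allVerts p N) (nodup_allVerts p N) mem_allVerts
  intro x y
  rw [decide_eq_true_eq, ModD.adj_iff]
  have key : ∀ (x y : Fin N × Fin N × Fin p) (u v : Vtx k (El (U.Var N) (U.Cla w N B))
      (U.Con w N B)), F u = x → F v = y → kV u = κ.symm x.2.2 ∧ cV z u = (x.1, x.2.1) ∧
      kV v = κ.symm y.2.2 ∧ cV z v = (y.1, y.2.1) := by
    rintro _ _ u v rfl rfl
    exact ⟨(κ.symm_apply_apply _).symm, rfl, (κ.symm_apply_apply _).symm, rfl⟩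
  constructor
  · rintro ⟨w', N', B', z', x', y', hz', hP, h7⟩
    rcases h7 with h7 | h7
    · obtain ⟨u, v, hr, h8, h9, h10, h11⟩ := relAt_local hz' hz hP h7
      refine ⟨u, v, adj_iff.2 (Or.inl hr), ?_, ?_⟩
      · change ((cV z u).1, (cV z u).2, κ (kV u)) = x
        rw [h9, h8, κ.apply_symm_apply]
      · change ((cV z v).1, (cV z v).2, κ (kV v)) = y
        rw [h11, h10, κ.apply_symm_apply]
    · obtain ⟨u, v, hr, h8, h9, h10, h11⟩ := relAt_local hz' hz (bpat_swap hP) h7
      refine ⟨v, u, adj_iff.2 (Or.inr hr), ?_, ?_⟩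
      · change ((cV z v).1, (cV z v).2, κ (kV v)) = x
        rw [h11, h10, κ.apply_symm_apply]
      · change ((cV z u).1, (cV z u).2, κ (kV u)) = y
        rw [h9, h8, κ.apply_symm_apply]
  · rintro ⟨u, v, huv, hx, hy⟩
    obtain ⟨h8, h9, h10, h11⟩ := key x y u v hx hy
    refine ⟨w, N, B, z, (x.1, x.2.1), (y.1, y.2.1), hz, rfl, ?_⟩
    rcases adj_iff.1 huv with h | h
    · exact Or.inl ⟨u, v, h, h8, h9, h10, h11⟩
    · exact Or.inr ⟨v, u, h, h10, h11, h8, h9⟩

end Pool.Agent.helper64.LP
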