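import Pool.Agent.helper64.LP.Lang

/-!
# Module D: isolated vertices and isomorphism do not matter
-/

set_option autoImplicit false

namespace Pool.Agent.helper64.LP

namespace ModD

variable {V W : Type} (f : V ↪ W) (G : SimpleGraph V)

lemma adj_iff {u v : W} : (G.map f).Adj u v ↔ ∃ a b, G.Adj a b ∧ f a = u ∧ f b = v := by
  constructor
  · rintro ⟨-, a, b, h1, h2, h3⟩
    exact ⟨a, b, h1, h2, h3⟩
  · rintro ⟨a, b, h1, rfl, rfl⟩
    exact ⟨f.injective.ne h1.ne, a, b, h1, rfl, rfl⟩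

lemma adj_map {a b : V} (h : G.Adj a b) : (G.map f).Adj (f a) (f b) :=
  (adj_iff f G).2 ⟨a, b, h, rfl, rfl⟩

lemma walk_lift {u v : W} (p : (G.map f).Walk u v) : ∀ a, f a = u → ∃ (b : V) (q : G.Walk a b),
    f b = v ∧ q.length = p.length ∧ q.support.map f = p.support ∧
      q.edges.map (Sym2.map f) = p.edges := by
  induction p with
  | nil =>
    rintro a rfl
    exact ⟨a, .nil, rfl, rfl, rfl, rfl⟩
  | cons h p ih =>
    rintro a rfl
    obtain ⟨a', b', hab, h1, h2⟩ := (adj_iff f G).1 h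
    have h3 : a' = a := f.injective h1
    subst h3
    obtain ⟨b, q, h4, h5, h6, h7⟩ := ih b' h2
    subst h2
    refine ⟨b, .cons hab q, h4, ?_, ?_, ?_⟩
    · simp [h5]
    · simp [h6]
    · simp [h7]

variable {f G}

lemma edge_lift {e : Sym2 W} (he : e ∈ (G.map f).edgeSet) :
    ∃ e' ∈ G.edgeSet, Sym2.map f e' = e := by
  induction e using Sym2.ind with
  | _ u v =>
    obtain ⟨a, b, hab, rfl, rfl⟩ := (adj_iff f G).1 he
    exact ⟨s(a, b), hab, rfl⟩

lemma edge_map {e : Sym2 V} (he : e ∈ G.edgeSet) : Sym2.map f e ∈ (G.map f).edgeSet := by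
  induction e using Sym2.ind with
  | _ u v => exact adj_map f G he

lemma mem_map_inj {e : Sym2 V} {v : V} (h : f v ∈ Sym2.map f e) : v ∈ e := by
  obtain ⟨a, ha, hav⟩ := Sym2.mem_map.1 h
  rwa [f.injective hav] at ha

lemma isCompact_arc {A : Set ℂ} {p q : ℂ} (h : IsArc A p q) : IsCompact A := by
  obtain ⟨γ, hγ, -, -, -, rfl⟩ := h
  exact isCompact_range hγ

/-- restriction of a drawing -/
noncomputable def pull (D : Drawing (G.map f)) : Drawing G where
  pos v := D.pos (f v)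
  pos_inj := D.pos_inj.comp f.injective
  arc e := D.arc (Sym2.map f e)
  isArc u v h := D.isArc (f u) (f v) (adj_map f G h)
  avoid u v w h hw := by
    rcases D.avoid (f u) (f v) (f w) (adj_map f G h) hw with h1 | h1
    · exact Or.inl (f.injective h1)
    · exact Or.inr (f.injective h1)
  finite e he e' he' hne := D.finite _ (edge_map he) _ (edge_map he')
    fun h => hne (Sym2.map.injective f.injective h)
  proper e he e' he' hne z hz := by
    rcases D.proper _ (edge_map he) _ (edge_map he')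
      (fun h => hne (Sym2.map.injective f.injective h)) z hz with ⟨v, h1, h2, h3⟩ | h
    · left
      obtain ⟨a, ha, rfl⟩ := Sym2.mem_map.1 h1
      exact ⟨a, ha, mem_map_inj h2, h3⟩
    · exact Or.inr h

lemma pull_planar {k : ℕ} {D : Drawing (G.map f)} (h : D.IsLocallyPlanar k) :
    (pull D).IsLocallyPlanar k := by
  intro u v p hp hpk e he e' he' hne hcr
  let φ : G →g G.map f := (SimpleGraph.Embedding.map f G).toHom
  have hφ : ∀ x, φ x = f x := fun x => rfl
  have hp' : (p.map φ).IsPath := hp.map f.injective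
  refine h _ _ (p.map φ) hp' (by rw [SimpleGraph.Walk.length_map]; exact hpk) (Sym2.map f e) ?_
    (Sym2.map f e') ?_ (fun h => hne (Sym2.map.injective f.injective h)) ?_
  · rw [SimpleGraph.Walk.edges_map]
    exact List.mem_map_of_mem he
  · rw [SimpleGraph.Walk.edges_map]
    exact List.mem_map_of_mem he'
  · obtain ⟨z, hz, h1⟩ := hcr
    refine ⟨z, hz, fun ⟨v, h2, h3, h4⟩ => h1 ?_⟩
    obtain ⟨a, ha, rfl⟩ := Sym2.mem_map.1 h2
    exact ⟨a, ha, mem_map_inj h3, h4⟩

lemma exists_bound [Finite V] (D : Drawing G) : ∃ R : ℝ, (∀ v, ‖D.pos v‖ ≤ R) ∧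
    ∀ e ∈ G.edgeSet, ∀ z ∈ D.arc e, ‖z‖ ≤ R := by
  have h1 : IsCompact ((⋃ v, {D.pos v}) ∪ ⋃ e ∈ G.edgeSet, D.arc e) := by
    refine (isCompact_iUnion fun v => isCompact_singleton).union ?_
    refine (Set.toFinite G.edgeSet).isCompact_biUnion ?_
    intro e he
    induction e using Sym2.ind with
    | _ u v => exact isCompact_arc (D.isArc u v he)
  obtain ⟨R, hR⟩ := h1.isBounded.exists_norm_le
  refine ⟨R, fun v => hR _ (Or.inl (Set.mem_iUnion.2 ⟨v, rfl⟩)), fun e he z hz => hR _ (Or.inr ?_)⟩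
  exact Set.mem_biUnion he hz

lemma exists_push [Finite V] [Finite W] (D : Drawing G) : ∃ D' : Drawing (G.map f),
    (∀ v, D'.pos (f v) = D.pos v) ∧ ∀ e, D'.arc (Sym2.map f e) = D.arc e := by
  obtain ⟨R, hR1, hR2⟩ := exists_bound D
  obtain ⟨n, ⟨g⟩⟩ := Finite.exists_equiv_fin W
  let P : W → ℂ := fun w => ((R + 1 + (g w : ℕ) : ℝ) : ℂ)
  have hP : ∀ w, R < ‖P w‖ := by
    intro w
    have h0 : (0 : ℝ) ≤ ((g w : ℕ) : ℝ) := Nat.cast_nonneg _
    simp only [P, Complex.norm_real, Real.norm_eq_abs]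
    refine lt_of_lt_of_le ?_ (le_abs_self _)
    linarith
  have hPinj : Function.Injective P := by
    intro w w' h
    simp only [P, Complex.ofReal_inj] at h
    have h1 : ((g w : ℕ) : ℝ) = ((g w' : ℕ) : ℝ) := by linarith
    exact g.injective (Fin.ext (Nat.cast_injective h1))
  have hfi := f.injective
  have hsi : Function.Injective (Sym2.map f) := Sym2.map.injective f.injective
  let pos : W → ℂ := Function.extend f D.pos P
  let arc : Sym2 W → Set ℂ := Function.extend (Sym2.map f) D.arc fun _ => ∅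
  have hpos : ∀ v, pos (f v) = D.pos v := fun v => hfi.extend_apply _ _ v
  have hpos' : ∀ w, (¬ ∃ a, f a = w) → pos w = P w := fun w h => Function.extend_apply' _ _ w h
  have harc : ∀ e, arc (Sym2.map f e) = D.arc e := fun e => hsi.extend_apply _ _ e
  refine ⟨⟨pos, ?_, arc, ?_, ?_, ?_, ?_⟩, hpos, harc⟩
  · intro w w' h
    by_cases h1 : ∃ a, f a = w
    · obtain ⟨a, rfl⟩ := h1
      by_cases h2 : ∃ b, f b = w'
      · obtain ⟨b, rfl⟩ := h2
        rw [hpos, hpos] at h
        rw [D.pos_inj h]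
      · rw [hpos, hpos' _ h2] at h
        exact absurd (hR1 a) (not_le.2 (h ▸ hP w'))
    · by_cases h2 : ∃ b, f b = w'
      · obtain ⟨b, rfl⟩ := h2
        rw [hpos, hpos' _ h1] at h
        exact absurd (hR1 b) (not_le.2 (h ▸ hP w))
      · rw [hpos' _ h1, hpos' _ h2] at h
        exact hPinj h
  · intro u v huv
    obtain ⟨a, b, hab, rfl, rfl⟩ := (adj_iff f G).1 huv
    have := harc s(a, b)
    rw [Sym2.map_mk] at this
    rw [this, hpos, hpos]
    exact D.isArc a b hab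
  · intro u v w huv hw
    obtain ⟨a, b, hab, rfl, rfl⟩ := (adj_iff f G).1 huv
    have h0 := harc s(a, b)
    rw [Sym2.map_mk] at h0
    rw [h0] at hw
    by_cases h2 : ∃ c, f c = w
    · obtain ⟨c, rfl⟩ := h2
      rw [hpos] at hw
      rcases D.avoid a b c hab hw with rfl | rfl
      · exact Or.inl rfl
      · exact Or.inr rfl
    · rw [hpos' _ h2] at hw
      exact absurd (hR2 _ hab _ hw) (not_le.2 (hP w))
  · intro e he e' he' hne
    obtain ⟨a, ha, rfl⟩ := edge_lift he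
    obtain ⟨b, hb, rfl⟩ := edge_lift he'
    rw [harc, harc]
    exact D.finite a ha b hb fun h => hne (by rw [h])
  · intro e he e' he' hne z hz
    obtain ⟨a, ha, rfl⟩ := edge_lift he
    obtain ⟨b, hb, rfl⟩ := edge_lift he'
    rw [harc, harc] at hz ⊢
    rcases D.proper a ha b hb (fun h => hne (by rw [h])) z hz with ⟨v, h1, h2, h3⟩ | h
    · left
      refine ⟨f v, Sym2.mem_map.2 ⟨v, h1, rfl⟩, Sym2.mem_map.2 ⟨v, h2, rfl⟩, ?_⟩
      rw [hpos, h3]
    · exact Or.inr h

lemma push_planar [Finite V] [Finite W] {k : ℕ} {D : Drawing G} (h : D.IsLocallyPlanar k)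
    {D' : Drawing (G.map f)} (h1 : ∀ v, D'.pos (f v) = D.pos v)
    (h2 : ∀ e, D'.arc (Sym2.map f e) = D.arc e) : D'.IsLocallyPlanar k := by
  intro u v p hp hpk e he e' he' hne hcr
  obtain ⟨a, rfl⟩ : ∃ a, f a = u := by
    cases p with
    | nil => simp at he
    | cons hadj p =>
      obtain ⟨a, b, -, rfl, -⟩ := (adj_iff f G).1 hadj
      exact ⟨a, rfl⟩
  obtain ⟨b, q, rfl, h4, h5, h6⟩ := walk_lift f G p a rfl
  rw [← h6] at he he'
  obtain ⟨e₁, he₁, rfl⟩ := List.mem_map.1 he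
  obtain ⟨e₂, he₂, rfl⟩ := List.mem_map.1 he'
  refine h _ _ q ?_ (by rw [h4]; exact hpk) e₁ he₁ e₂ he₂ (fun h => hne (by rw [h])) ?_
  · rw [SimpleGraph.Walk.isPath_def] at hp ⊢
    rw [← h5] at hp
    exact List.Nodup.of_map _ hp
  · obtain ⟨z, hz, h7⟩ := hcr
    rw [h2, h2] at hz
    refine ⟨z, hz, fun ⟨v, h8, h9, h10⟩ => h7 ⟨f v, Sym2.mem_map.2 ⟨v, h8, rfl⟩,
      Sym2.mem_map.2 ⟨v, h9, rfl⟩, ?_⟩⟩
    rw [h1, h10]

end ModD

open ModD in
/-- Module D -/
theorem locallyPlanar_map {V W : Type} [Finite V] [Finite W] {k : ℕ} (f : V ↪ W)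
    (G : SimpleGraph V) : LocallyPlanar k (G.map f) ↔ LocallyPlanar k G := by
  constructor
  · rintro ⟨D, hD⟩
    exact ⟨pull D, pull_planar hD⟩
  · rintro ⟨D, hD⟩
    obtain ⟨D', h1, h2⟩ := exists_push (f := f) D
    exact ⟨D', push_planar hD h1 h2⟩

end Pool.Agent.helper64.LP
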